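import Pool.Agent.N266.LS.Stm

/-!
# Liouville spheres, LS/LEVEL: discs of one scale around one half period (helper559)
-/

set_option autoImplicit false

open MeasureTheory Set

namespace Pool.Agent.N559.LS

open Pool.Agent.N273.LT (Alt sc n1 n2 zz UB int_of_bd sc_mono)
open Pool.Agent.Y291.DB (len gdist disc doubling Eigen)
open Pool.Agent.N266.LS

theorem zz_nonneg (φ : ℝ → ℝ → ℝ) {w : ℝ} (hw : 0 ≤ w) (X Y : ℝ) : 0 ≤ zz φ w X Y := by
  unfold zz
  refine add_nonneg ?_ ?_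
  · exact intervalIntegral.integral_nonneg (by linarith) fun x _ => Nat.cast_nonneg _
  · exact intervalIntegral.integral_nonneg (by linarith) fun x _ => Nat.cast_nonneg _

theorem zz_mono {φ : ℝ → ℝ → ℝ} (h : UB φ) {w w' : ℝ} (hw : 0 < w) (hw' : w ≤ w') (X Y : ℝ) :
    zz φ w X Y ≤ zz φ w' X Y := by
  have hw0' : 0 < w' := hw.trans_le hw'
  have key : ∀ (c : ℝ) (m m' : ℝ → ℕ), Measurable m → Measurable m' → (∃ B : ℝ, ∀ x, (m x : ℝ) ≤ B) →
      (∃ B : ℝ, ∀ x, (m' x : ℝ) ≤ B) → (∀ x, m x ≤ m' x) →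
      ∫ x in (c - w)..(c + w), (m x : ℝ) ≤ ∫ x in (c - w')..(c + w'), (m' x : ℝ) := by
    intro c m m' hm hm' hB hB' hle
    obtain ⟨B, hB⟩ := hB
    obtain ⟨B', hB'⟩ := hB'
    have i1 : ∀ a b : ℝ, a ≤ b → IntervalIntegrable (fun x => (m x : ℝ)) volume a b := by
      intro a b hab
      rw [intervalIntegrable_iff_integrableOn_Ioc_of_le hab]
      exact int_of_bd hm hB measure_Ioc_lt_top.ne
    have i2 : ∀ a b : ℝ, a ≤ b → IntervalIntegrable (fun x => (m' x : ℝ)) volume a b := by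
      intro a b hab
      rw [intervalIntegrable_iff_integrableOn_Ioc_of_le hab]
      exact int_of_bd hm' hB' measure_Ioc_lt_top.ne
    refine (intervalIntegral.integral_mono_on (by linarith) (i1 _ _ (by linarith))
      (i2 _ _ (by linarith)) fun x _ => by exact_mod_cast hle x).trans ?_
    exact intervalIntegral.integral_mono_interval (by linarith) (by linarith) (by linarith)
      (Filter.Eventually.of_forall fun x => Nat.cast_nonneg _) (i2 _ _ (by linarith))
  have m1 : ∀ v : ℝ, 0 < v → Measurable fun x => n1 φ v x Y := fun v hv =>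
    (h.m1 hv).comp (measurable_id.prodMk measurable_const)
  have m2 : ∀ v : ℝ, 0 < v → Measurable fun y => n2 φ v X y := fun v hv =>
    (h.m2 hv).comp (measurable_const.prodMk measurable_id)
  unfold zz
  refine add_le_add ?_ ?_
  · refine key X _ _ (m1 w hw) (m1 w' hw0') ?_ ?_ fun x => ?_
    · obtain ⟨B, hB⟩ := h.u1 w
      exact ⟨B, fun x => hB x Y⟩
    · obtain ⟨B, hB⟩ := h.u1 w'
      exact ⟨B, fun x => hB x Y⟩
    · exact sc_mono (h.b1 x) (by linarith) (by linarith)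
  · refine key Y _ _ (m2 w hw) (m2 w' hw0') ?_ ?_ fun y => ?_
    · obtain ⟨B, hB⟩ := h.u2 w
      exact ⟨B, fun x => hB X x⟩
    · obtain ⟨B, hB⟩ := h.u2 w'
      exact ⟨B, fun x => hB X x⟩
    · exact sc_mono (h.b2 y) (by linarith) (by linarith)

theorem sin_sq_add (k : ℤ) (u : ℝ) : Real.sin (u + k * Real.pi) ^ 2 = Real.sin u ^ 2 := by
  rw [Real.sin_add_int_mul_pi]
  rw [mul_pow, ← zpow_natCast, ← zpow_mul]
  have : ((-1 : ℝ)) ^ (k * ((2 : ℕ) : ℤ)) = 1 := by
    rw [mul_comm, zpow_mul]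
    norm_num
  rw [this, one_mul]

theorem sin_sq_ge {u : ℝ} (hu : |u| ≤ Real.pi / 2) : 4 / Real.pi ^ 2 * u ^ 2 ≤ Real.sin u ^ 2 := by
  have h1 := Real.mul_abs_le_abs_sin hu
  have h2 := pow_le_pow_left₀ (by positivity) h1 2
  rw [mul_pow, sq_abs, sq_abs, div_pow] at h2
  norm_num at h2 ⊢
  exact h2

/-- the size of a set of points of one scale -/
theorem scale {lam Q t c : ℝ} (hlam : 0 < lam) (hc : 0 ≤ c) (hQ : 1 ≤ Q)
    (h1 : lam * t ^ 2 ≤ c ^ 2 * Q ^ 2) (h2 : t ^ 2 ≤ c ^ 2) :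
    |t| ≤ 2 * c * Q / Real.sqrt (1 + lam) := by
  have hs : 0 < Real.sqrt (1 + lam) := Real.sqrt_pos.2 (by linarith)
  rw [le_div_iff₀ hs]
  have h3 : (|t| * Real.sqrt (1 + lam)) ^ 2 ≤ (2 * c * Q) ^ 2 := by
    rw [mul_pow, sq_abs, Real.sq_sqrt (by linarith)]
    have h4 : c ^ 2 ≤ c ^ 2 * Q ^ 2 := by
      have : 1 ≤ Q ^ 2 := one_le_pow₀ hQ
      nlinarith [sq_nonneg c]
    nlinarith
  exact le_of_sq_le_sq h3 (by positivity)

theorem t_LEVEL (hD : S_DOUB) (hZ : S_CNT) (hR : S_RECT) : S_LEVEL := by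
  intro L m K C C₁ hL hm hK hC hC1
  obtain ⟨β, E, w₀, hβ, hβ1, hE, hw₀, HD⟩ := hD L m K C hL hm hK hC
  have hpi := Real.pi_pos
  set am : ℝ := L / 4 + Real.pi / 2 with ham
  have ham0 : 0 < am := by positivity
  set R : ℝ := 2 * am + 1 + 4 * w₀ with hRd
  obtain ⟨Z₀, hZ₀, HZ⟩ := hZ L K R hL hK (by positivity)
  set c₀ : ℝ := L / 2 + Real.pi with hc₀
  have hc₀0 : 0 < c₀ := by positivity
  refine ⟨C₁ * E / β ^ 2 * ((2 * am + 1) ^ 2 + 16 * w₀ ^ 2 * Z₀ * (4 * c₀ + 1)), by positivity, ?_⟩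
  intro f g lam φ hLM hφ j k l ι _ p hp1 hp2 hn1 hn2 hmult
  have hlam := hφ.pos
  obtain ⟨hUB, hA1, hA2⟩ := HZ f g m lam φ hLM hφ
  set s := Real.sqrt (1 + lam) with hs
  have hs1 : 1 ≤ s := by
    rw [hs]
    exact Real.one_le_sqrt.2 (by linarith)
  set J : ℝ := 2 ^ j with hJ
  have hJ1 : 1 ≤ J := one_le_pow₀ (by norm_num)
  have hJ2 : (2 : ℝ) ^ (j + 1) = 2 * J := by rw [pow_succ]; ring
  have hJ4 : (4 : ℝ) ^ j = J ^ 2 := by
    rw [hJ, ← pow_mul, mul_comm j 2, pow_mul]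
    norm_num
  rw [hJ2] at hn2
  set a : ℝ := min (2 * c₀ * J / s) am with ha
  have ha0 : 0 < a := by positivity
  set b : ℝ := β / (2 * J) with hb
  have hb0 : 0 < b := by positivity
  set w : ℝ := w₀ / J with hw
  have hw0 : 0 < w := by positivity
  have ha1 : a ≤ am := min_le_right _ _
  have ha2 : a ≤ 2 * c₀ * J / s := min_le_left _ _
  have hb1 : b ≤ 1 / 2 := by
    rw [hb, div_le_div_iff₀ (by positivity) (by norm_num)]
    nlinarith
  have hw1 : w ≤ w₀ := div_le_self hw₀.le hJ1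
  have hnpos : ∀ i, 0 < nn L lam (p i) := fun i => lt_of_lt_of_le (by positivity) (hn1 i)
  -- the points are in the box
  have hnn : ∀ i, lam * D2 L (p i) ≤ (2 * J) ^ 2 := by
    intro i
    have h1 := pow_le_pow_left₀ (hnpos i).le (hn2 i) 2
    have h2 : 0 ≤ D2 L (p i) := by unfold D2; positivity
    unfold nn at h1
    rw [Real.sq_sqrt (by positivity)] at h1
    have h3 := Real.sqrt_nonneg lam
    linarith
  have hbox : ∀ i, |(p i).1 - k * (L / 2)| ≤ a ∧ |(p i).2 - l * Real.pi| ≤ a := by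
    intro i
    have h1 := hnn i
    have h2 : Real.sin (2 * Real.pi * (p i).1 / L) ^ 2 =
        Real.sin (2 * Real.pi / L * ((p i).1 - k * (L / 2))) ^ 2 := by
      have e : 2 * Real.pi * (p i).1 / L =
          2 * Real.pi / L * ((p i).1 - k * (L / 2)) + k * Real.pi := by
        field_simp
        ring
      rw [e, sin_sq_add]
    have h3 : Real.sin (p i).2 ^ 2 = Real.sin ((p i).2 - l * Real.pi) ^ 2 := by
      have e : (p i).2 = ((p i).2 - l * Real.pi) + l * Real.pi := by ring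
      conv_lhs => rw [e]
      rw [sin_sq_add]
    have h4 : |2 * Real.pi / L * ((p i).1 - k * (L / 2))| ≤ Real.pi / 2 := by
      rw [abs_mul, abs_of_pos (by positivity : 0 < 2 * Real.pi / L)]
      calc 2 * Real.pi / L * |(p i).1 - k * (L / 2)| ≤ 2 * Real.pi / L * (L / 4) :=
            mul_le_mul_of_nonneg_left (hp1 i) (by positivity)
        _ = Real.pi / 2 := by field_simp; ring
    have h5 := sin_sq_ge h4
    have h6 := sin_sq_ge (hp2 i)
    rw [← h2] at h5
    rw [← h3] at h6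
    have e5 : 4 / Real.pi ^ 2 * (2 * Real.pi / L * ((p i).1 - k * (L / 2))) ^ 2 =
        16 / L ^ 2 * ((p i).1 - k * (L / 2)) ^ 2 := by
      field_simp
      ring
    rw [e5] at h5
    unfold D2 at h1
    have hs1' : 0 ≤ Real.sin (2 * Real.pi * (p i).1 / L) ^ 2 := sq_nonneg _
    have hs2' : 0 ≤ Real.sin (p i).2 ^ 2 := sq_nonneg _
    have h7 : lam * (16 / L ^ 2 * ((p i).1 - k * (L / 2)) ^ 2) ≤ (2 * J) ^ 2 := by
      have := mul_le_mul_of_nonneg_left h5 hlam.le
      have := mul_nonneg hlam.le hs2'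
      linarith
    have h8 : lam * (4 / Real.pi ^ 2 * ((p i).2 - l * Real.pi) ^ 2) ≤ (2 * J) ^ 2 := by
      have := mul_le_mul_of_nonneg_left h6 hlam.le
      have := mul_nonneg hlam.le hs1'
      linarith
    constructor
    · refine le_min ?_ ((hp1 i).trans (by rw [ham]; linarith))
      have h9 : lam * ((p i).1 - k * (L / 2)) ^ 2 ≤ (L / 2) ^ 2 * J ^ 2 := by
        have e9 : lam * ((p i).1 - k * (L / 2)) ^ 2 =
            L ^ 2 / 16 * (lam * (16 / L ^ 2 * ((p i).1 - k * (L / 2)) ^ 2)) := by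
          field_simp
        rw [e9]
        have := mul_le_mul_of_nonneg_left h7 (by positivity : 0 ≤ L ^ 2 / 16)
        linarith
      have h10 : ((p i).1 - k * (L / 2)) ^ 2 ≤ (L / 2) ^ 2 := by
        rw [← sq_abs]
        exact pow_le_pow_left₀ (abs_nonneg _) ((hp1 i).trans (by linarith)) 2
      refine (scale hlam (by positivity) hJ1 h9 h10).trans ?_
      rw [← hs]
      apply div_le_div_of_nonneg_right _ (by positivity)
      rw [hc₀]
      nlinarith
    · refine le_min ?_ ((hp2 i).trans (by rw [ham]; linarith))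
      have h9 : lam * ((p i).2 - l * Real.pi) ^ 2 ≤ Real.pi ^ 2 * J ^ 2 := by
        have e9 : lam * ((p i).2 - l * Real.pi) ^ 2 =
            Real.pi ^ 2 / 4 * (lam * (4 / Real.pi ^ 2 * ((p i).2 - l * Real.pi) ^ 2)) := by
          field_simp
        rw [e9]
        have := mul_le_mul_of_nonneg_left h8 (by positivity : 0 ≤ Real.pi ^ 2 / 4)
        linarith
      have h10 : ((p i).2 - l * Real.pi) ^ 2 ≤ Real.pi ^ 2 := by
        rw [← sq_abs]
        exact pow_le_pow_left₀ (abs_nonneg _) ((hp2 i).trans (by linarith)) 2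
      refine (scale hlam (by positivity) hJ1 h9 h10).trans ?_
      rw [← hs]
      apply div_le_div_of_nonneg_right _ (by positivity)
      rw [hc₀]
      nlinarith
  -- the boxes around the points are in the discs
  have hbb : ∀ i, b ≤ β / nn L lam (p i) := by
    intro i
    rw [hb]
    exact div_le_div_of_nonneg_left hβ.le (hnpos i) (hn2 i)
  have key := hR (fun x y => φ (x, y)) hUB (Z₀ * s) R (by positivity) hA1 hA2
    (k * (L / 2)) (l * Real.pi) a b w E (2 * J) C₁ ι p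
    (fun i => max (doubling (dens f g) L 0 φ (p i) (C / Real.sqrt lam)) 0)
    ha0 hb0 hw0 hE.le (by positivity) (by rw [hRd]; linarith)
    (fun i => (hbox i).1) (fun i => (hbox i).2) (fun i => le_max_right _ _) ?_ ?_
  · have e1 : (2 * b) ^ 2 = β ^ 2 / J ^ 2 := by
      rw [hb]
      field_simp
    rw [e1] at key
    have e2 : ∑ i, max (doubling (dens f g) L 0 φ (p i) (C / Real.sqrt lam)) 0 =
        J ^ 2 / β ^ 2 * ((∑ i, max (doubling (dens f g) L 0 φ (p i) (C / Real.sqrt lam)) 0) *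
          (β ^ 2 / J ^ 2)) := by
      field_simp
    rw [e2, hJ4]
    have h11 := mul_le_mul_of_nonneg_left key (by positivity : 0 ≤ J ^ 2 / β ^ 2)
    refine h11.trans ?_
    have e3 : J ^ 2 / β ^ 2 * (C₁ * E * ((2 * a + 2 * b) ^ 2 +
        2 * J * (2 * ((2 * w) ^ 2 * (Z₀ * s) * (2 * a + 2 * b))))) =
        C₁ * E / β ^ 2 * ((2 * (J * a) + β) ^ 2 +
          16 * w₀ ^ 2 * Z₀ * (2 * J * (s * a) + s * β)) := by
      rw [hb, hw]
      field_simp
      ring
    rw [e3]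
    have h12 : s * a ≤ 2 * c₀ * J := by
      have := mul_le_mul_of_nonneg_left ha2 (by positivity : 0 ≤ s)
      have e4 : s * (2 * c₀ * J / s) = 2 * c₀ * J := by field_simp
      rwa [e4] at this
    have h13 : J * a ≤ J * am := mul_le_mul_of_nonneg_left ha1 (by positivity)
    have h14 : 2 * (J * a) + β ≤ (2 * am + 1) * J := by nlinarith
    have h15 : (2 * (J * a) + β) ^ 2 ≤ ((2 * am + 1) * J) ^ 2 :=
      pow_le_pow_left₀ (by positivity) h14 2
    have h16 : 2 * J * (s * a) + s * β ≤ 4 * c₀ * J ^ 2 + s := by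
      have h17 := mul_le_mul_of_nonneg_left h12 (by positivity : 0 ≤ 2 * J)
      have h18 : s * β ≤ s * 1 := mul_le_mul_of_nonneg_left hβ1 (by positivity)
      nlinarith
    have h19 : 4 * c₀ * J ^ 2 + s ≤ (4 * c₀ + 1) * (J ^ 2 + s) := by
      have h20 : 0 ≤ 4 * c₀ * s := by positivity
      have h21 : 0 ≤ J ^ 2 := by positivity
      nlinarith
    have h22 : (2 * (J * a) + β) ^ 2 + 16 * w₀ ^ 2 * Z₀ * (2 * J * (s * a) + s * β) ≤
        ((2 * am + 1) ^ 2 + 16 * w₀ ^ 2 * Z₀ * (4 * c₀ + 1)) * (J ^ 2 + s) := by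
      have h23 := mul_le_mul_of_nonneg_left (h16.trans h19)
        (by positivity : 0 ≤ 16 * w₀ ^ 2 * Z₀)
      have h24 : 0 ≤ (2 * am + 1) ^ 2 * s := by positivity
      have h25 : ((2 * am + 1) * J) ^ 2 = (2 * am + 1) ^ 2 * J ^ 2 := by ring
      rw [h25] at h15
      linarith
    have h26 := mul_le_mul_of_nonneg_left h22 (by positivity : 0 ≤ C₁ * E / β ^ 2)
    linarith
  · intro i x y hx hy
    have h1 := (HD f g lam φ hLM hφ (p i) x y (hx.trans (hbb i)) (hy.trans (hbb i))).2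
    refine h1.trans (mul_le_mul_of_nonneg_left (add_le_add le_rfl ?_) hE.le)
    have h2 : zz (fun x y => φ (x, y)) (w₀ / nn L lam (p i)) x y ≤
        zz (fun x y => φ (x, y)) w x y :=
      zz_mono hUB (div_pos hw₀ (hnpos i)) (div_le_div_of_nonneg_left hw₀.le (by positivity)
        (hn1 i)) x y
    exact mul_le_mul h2 (hn2 i) (hnpos i).le (zz_nonneg _ hw0.le _ _)
  · intro x y
    refine le_trans ?_ (hmult (x, y))
    have hsub : {i | |x - (p i).1| ≤ b ∧ |y - (p i).2| ≤ b} ⊆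
        {i | (x, y) ∈ disc (dens f g) L 0 (p i) (C / Real.sqrt lam)} := by
      intro i hi
      exact (HD f g lam φ hLM hφ (p i) x y (hi.1.trans (hbb i)) (hi.2.trans (hbb i))).1
    exact_mod_cast Set.ncard_le_ncard hsub (Set.toFinite _)

end Pool.Agent.N559.LS
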